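import Mathlib
import Pool.Agent.H10.Admissible

set_option autoImplicit false

namespace Pool.Agent.Results.MP_17a11e_co.Exists14

open Pool.Agent.H10.Admissible in
/-- There is a set of exactly 14 points of the plane such that every horizontal line `y = c`,
every vertical line `x = c`, every slope `1` line `y - x = c` and every slope `-1` line
`y + x = c` contains no point or exactly two points of the set. -/
theorem result : ∃ S : Set (ℝ × ℝ), S.Finite ∧ S.ncard = 14 ∧ ∀ c : ℝ,
    ((S ∩ {p | p.2 = c}).ncard = 0 ∨ (S ∩ {p | p.2 = c}).ncard = 2) ∧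
    ((S ∩ {p | p.1 = c}).ncard = 0 ∨ (S ∩ {p | p.1 = c}).ncard = 2) ∧
    ((S ∩ {p | p.2 - p.1 = c}).ncard = 0 ∨ (S ∩ {p | p.2 - p.1 = c}).ncard = 2) ∧
    ((S ∩ {p | p.2 + p.1 = c}).ncard = 0 ∨ (S ∩ {p | p.2 + p.1 = c}).ncard = 2) := by
  refine ⟨S, (Finset.finite_toSet T).image _, S_card, fun c => ⟨?_, ?_, ?_, ?_⟩⟩
  · exact line (fun p => p.2) (fun p => p.2) (fun p => rfl) (by decide +kernel) c
  · exact line (fun p => p.1) (fun p => p.1) (fun p => rfl) (by decide +kernel) c
  · exact line (fun p => p.2 - p.1) (fun p => p.2 - p.1) (fun p => by simp [e]) (by decide +kernel) c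
  · exact line (fun p => p.2 + p.1) (fun p => p.2 + p.1) (fun p => by simp [e]) (by decide +kernel) c

end Pool.Agent.Results.MP_17a11e_co.Exists14
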